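import Pool.Agent.H41.CP.Stmts

set_option autoImplicit false

/-!
# Forced rows
-/

namespace Pool.Agent.H828.CP

open Pool.Agent.H41.CP

/-- `x` may take the value of `y` -/
def arc (H : Fin 4 → P6) (f : P6) (x y : Fin 6) : Prop := x ≠ y ∧ ∀ i, f y ≠ H i x

/-- forced rows -/
def Fo (H : Fin 4 → P6) (f : P6) (s : Fin 6) : Prop := ∀ g, Av H g → g s = f s

theorem exists_not_mem (z : Fin 6) (h : Fin 4 → Fin 6) : ∃ v, v ≠ z ∧ ∀ i, v ≠ h i := by
  have hc : (insert z (Finset.univ.image h)).card < (Finset.univ : Finset (Fin 6)).card := by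
    have h1 := Finset.card_insert_le z (Finset.univ.image h)
    have h2 : (Finset.univ.image h).card ≤ (Finset.univ : Finset (Fin 4)).card :=
      Finset.card_image_le
    rw [Finset.card_fin] at h2 ⊢
    omega
  obtain ⟨v, _, hv⟩ := Finset.exists_mem_notMem_of_card_lt_card hc
  rw [Finset.mem_insert, not_or] at hv
  refine ⟨v, hv.1, fun i hi => hv.2 ?_⟩
  rw [hi]
  exact Finset.mem_image_of_mem h (Finset.mem_univ i)

theorem out_arc (H : Fin 4 → P6) (f : P6) (x : Fin 6) : ∃ y, arc H f x y := by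
  obtain ⟨v, h1, h2⟩ := exists_not_mem (f x) (fun i => H i x)
  refine ⟨f⁻¹ v, ?_, fun i => ?_⟩
  · intro h
    apply h1
    rw [h]
    exact (f.apply_symm_apply v).symm
  · rw [show f (f⁻¹ v) = v from f.apply_symm_apply v]
    exact h2 i

theorem in_arc (H : Fin 4 → P6) (f : P6) (y : Fin 6) : ∃ x, arc H f x y := by
  obtain ⟨x, h1, h2⟩ := exists_not_mem y (fun i => (H i)⁻¹ (f y))
  refine ⟨x, h1, fun i h => h2 i ?_⟩
  rw [h]
  exact ((H i).symm_apply_apply x).symm

theorem hall {H : Fin 4 → P6} {f : P6} (hf : Av H f) {s : Fin 6} (hs : Fo H f s) :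
    ∃ A : Finset (Fin 6), s ∈ A ∧ ∀ x ∈ A, ∀ y, arc H f x y → y ∈ A ∧ y ≠ s := by
  classical
  let t : Fin 6 → Finset (Fin 6) := fun x =>
    Finset.univ.filter fun y => arc H f x y ∨ (y = x ∧ x ≠ s)
  have ht : ∀ x y, y ∈ t x ↔ arc H f x y ∨ (y = x ∧ x ≠ s) := by
    intro x y
    simp [t]
  have h1 : ¬ ∀ A : Finset (Fin 6), A.card ≤ (A.biUnion t).card := by
    rw [Finset.all_card_le_biUnion_card_iff_exists_injective]
    rintro ⟨p, hp, hpt⟩
    let q : P6 := Equiv.ofBijective p (Finite.injective_iff_bijective.1 hp)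
    have hq : ∀ x, q x = p x := fun _ => rfl
    have hg : Av H (f * q) := by
      intro i x
      rw [Equiv.Perm.mul_apply, hq]
      rcases (ht _ _).1 (hpt x) with h | h
      · exact h.2 i
      · rw [h.1]; exact hf i x
    have h2 := hs _ hg
    rw [Equiv.Perm.mul_apply, hq] at h2
    have h3 := f.injective h2
    rcases (ht _ _).1 (hpt s) with h | h
    · exact h.1 h3.symm
    · exact h.2 rfl
  push Not at h1
  obtain ⟨A, hA⟩ := h1
  have hsub : A.erase s ⊆ A.biUnion t := by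
    intro x hx
    rw [Finset.mem_biUnion]
    exact ⟨x, Finset.mem_of_mem_erase hx, (ht _ _).2 (Or.inr ⟨rfl, Finset.ne_of_mem_erase hx⟩)⟩
  have hsA : s ∈ A := by
    by_contra hn
    rw [Finset.erase_eq_of_notMem hn] at hsub
    exact absurd (Finset.card_le_card hsub) (not_le.2 hA)
  have heq : A.erase s = A.biUnion t := by
    apply Finset.eq_of_subset_of_card_le hsub
    rw [Finset.card_erase_of_mem hsA]
    omega
  refine ⟨A, hsA, fun x hx y hy => ?_⟩
  have h4 : y ∈ A.erase s := by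
    rw [heq, Finset.mem_biUnion]
    exact ⟨x, hx, (ht _ _).2 (Or.inl hy)⟩
  exact ⟨Finset.mem_of_mem_erase h4, Finset.ne_of_mem_erase h4⟩

theorem min_card (p : Finset (Fin 6) → Prop) (h : ∃ O, p O) :
    ∃ O, p O ∧ ∀ O', p O' → O.card ≤ O'.card := by
  classical
  obtain ⟨O₀, hO₀⟩ := h
  obtain ⟨O, hO, hmin⟩ := Finset.exists_min_image (Finset.univ.filter p) Finset.card
    ⟨O₀, by simp [hO₀]⟩
  exact ⟨O, by simpa using hO, fun O' h' => hmin O' (by simpa using h')⟩

theorem exists_OI {H : Fin 4 → P6} {f : P6} (hf : Av H f) {s : Fin 6} (hs : Fo H f s) :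
    ∃ O I : Finset (Fin 6), Disjoint O I ∧ 2 ≤ O.card ∧ 2 ≤ I.card ∧
      (∀ x ∈ O, ¬ Fo H f x) ∧ (∀ x ∈ I, ¬ Fo H f x) ∧
      (∀ x ∈ O, ∀ y, arc H f x y → y ∈ O) ∧ (∀ y ∈ I, ∀ x, arc H f x y → x ∈ I) := by
  classical
  obtain ⟨A, hsA, hA⟩ := hall hf hs
  -- the out-closed set
  have hO : ∃ O : Finset (Fin 6), O.Nonempty ∧ O ⊆ A ∧ ∀ x ∈ O, ∀ y, arc H f x y → y ∈ O := by
    refine ⟨A.erase s, ?_, Finset.erase_subset _ _, ?_⟩
    · obtain ⟨y, hy⟩ := out_arc H f s
      obtain ⟨h1, h2⟩ := hA s hsA y hy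
      exact ⟨y, Finset.mem_erase.2 ⟨h2, h1⟩⟩
    · intro x hx y hy
      obtain ⟨h1, h2⟩ := hA x (Finset.mem_of_mem_erase hx) y hy
      exact Finset.mem_erase.2 ⟨h2, h1⟩
  obtain ⟨O, ⟨hO1, hO2, hO3⟩, hOmin⟩ := min_card _ hO
  -- the in-closed set
  have hI : ∃ I : Finset (Fin 6), I.Nonempty ∧ I ⊆ Aᶜ ∧ ∀ y ∈ I, ∀ x, arc H f x y → x ∈ I := by
    refine ⟨Aᶜ, ?_, Finset.Subset.refl _, ?_⟩
    · obtain ⟨x, hx⟩ := in_arc H f s
      refine ⟨x, Finset.mem_compl.2 fun h => ?_⟩
      exact (hA x h s hx).2 rfl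
    · intro y hy x hx
      rw [Finset.mem_compl] at hy ⊢
      exact fun h => hy (hA x h y hx).1
  obtain ⟨I, ⟨hI1, hI2, hI3⟩, hImin⟩ := min_card _ hI
  refine ⟨O, I, ?_, ?_, ?_, ?_, ?_, hO3, hI3⟩
  · rw [Finset.disjoint_left]
    intro x hx hx'
    exact Finset.mem_compl.1 (hI2 hx') (hO2 hx)
  · obtain ⟨x, hx⟩ := hO1
    obtain ⟨y, hy⟩ := out_arc H f x
    have h := hO3 x hx y hy
    exact Finset.one_lt_card.2 ⟨x, hx, y, h, hy.1⟩
  · obtain ⟨y, hy⟩ := hI1
    obtain ⟨x, hx⟩ := in_arc H f y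
    have h := hI3 y hy x hx
    exact Finset.one_lt_card.2 ⟨x, h, y, hy, hx.1⟩
  · intro r hr hFo
    obtain ⟨C, hrC, hC⟩ := hall hf hFo
    have h := hOmin (O ∩ C.erase r) ⟨?_, ?_, ?_⟩
    · have h2 : O ∩ C.erase r ⊂ O := by
        refine Finset.ssubset_iff_subset_ne.2 ⟨Finset.inter_subset_left, fun he => ?_⟩
        rw [← he] at hr
        exact Finset.ne_of_mem_erase (Finset.mem_inter.1 hr).2 rfl
      exact absurd (Finset.card_lt_card h2) (not_lt.2 h)
    · obtain ⟨y, hy⟩ := out_arc H f r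
      obtain ⟨h1, h2⟩ := hC r hrC y hy
      exact ⟨y, Finset.mem_inter.2 ⟨hO3 r hr y hy, Finset.mem_erase.2 ⟨h2, h1⟩⟩⟩
    · exact fun x hx => hO2 (Finset.mem_inter.1 hx).1
    · intro x hx y hy
      obtain ⟨h1, h2⟩ := Finset.mem_inter.1 hx
      obtain ⟨h3, h4⟩ := hC x (Finset.mem_of_mem_erase h2) y hy
      exact Finset.mem_inter.2 ⟨hO3 x h1 y hy, Finset.mem_erase.2 ⟨h4, h3⟩⟩
  · intro r hr hFo
    obtain ⟨C, hrC, hC⟩ := hall hf hFo
    have h := hImin (I ∩ Cᶜ) ⟨?_, ?_, ?_⟩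
    · have h2 : I ∩ Cᶜ ⊂ I := by
        refine Finset.ssubset_iff_subset_ne.2 ⟨Finset.inter_subset_left, fun he => ?_⟩
        rw [← he] at hr
        exact Finset.mem_compl.1 (Finset.mem_inter.1 hr).2 hrC
      exact absurd (Finset.card_lt_card h2) (not_lt.2 h)
    · obtain ⟨x, hx⟩ := in_arc H f r
      refine ⟨x, Finset.mem_inter.2 ⟨hI3 r hr x hx, Finset.mem_compl.2 fun h => ?_⟩⟩
      exact (hC x h r hx).2 rfl
    · exact fun x hx => hI2 (Finset.mem_inter.1 hx).1
    · intro y hy x hx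
      obtain ⟨h1, h2⟩ := Finset.mem_inter.1 hy
      refine Finset.mem_inter.2 ⟨hI3 y h1 x hx, Finset.mem_compl.2 fun h => ?_⟩
      exact Finset.mem_compl.1 h2 (hC x h y hx).1

theorem f3 : S_F3 := by
  classical
  intro H f hf X hX
  by_contra hcon
  have hFo : ∀ x ∈ X, Fo H f x := by
    intro x hx g hg
    by_contra hne
    exact hcon ⟨g, hg, x, hx, hne⟩
  have hXn : X.Nonempty := by
    rw [← Finset.card_pos]; omega
  obtain ⟨s, hs⟩ := hXn
  obtain ⟨O, I, hd, hO, hI, hOF, hIF, _, _⟩ := exists_OI hf (hFo s hs)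
  have h1 : O ∪ I ⊆ Xᶜ := by
    intro x hx
    rw [Finset.mem_compl]
    intro hxX
    rcases Finset.mem_union.1 hx with h | h
    · exact hOF x h (hFo x hxX)
    · exact hIF x h (hFo x hxX)
  have h2 := Finset.card_le_card h1
  rw [Finset.card_union_of_disjoint hd, Finset.card_compl, Fintype.card_fin] at h2
  omega

theorem av_swap {H : Fin 4 → P6} {f : P6} (hf : Av H f) {a b : Fin 6} (hab : arc H f a b)
    (hba : arc H f b a) : Av H (f * Equiv.swap a b) := by
  intro i x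
  rw [Equiv.Perm.mul_apply]
  by_cases h1 : x = a
  · rw [h1, Equiv.swap_apply_left]; exact hab.2 i
  · by_cases h2 : x = b
    · rw [h2, Equiv.swap_apply_right]; exact hba.2 i
    · rw [Equiv.swap_apply_of_ne_of_ne h1 h2]; exact hf i x

theorem f2 : S_F2 := by
  classical
  intro H f hf s t hst hF
  have hs : Fo H f s := fun g hg => (hF g hg).1
  have ht : Fo H f t := fun g hg => (hF g hg).2
  obtain ⟨O, I, hd, hO, hI, hOF, hIF, hOc, hIc⟩ := exists_OI hf hs
  have h1 : O ∪ I ⊆ ({s, t} : Finset (Fin 6))ᶜ := by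
    intro x hx
    rw [Finset.mem_compl, Finset.mem_insert, Finset.mem_singleton]
    intro h
    rcases Finset.mem_union.1 hx with h' | h' <;> rcases h with rfl | rfl
    · exact hOF _ h' hs
    · exact hOF _ h' ht
    · exact hIF _ h' hs
    · exact hIF _ h' ht
  have h2 := Finset.card_le_card h1
  rw [Finset.card_union_of_disjoint hd, Finset.card_compl, Fintype.card_fin,
    Finset.card_pair hst] at h2
  have hO2 : O.card = 2 := by omega
  have hI2 : I.card = 2 := by omega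
  obtain ⟨a, b, hab, rfl⟩ := Finset.card_eq_two.1 hO2
  obtain ⟨c, d, hcd, rfl⟩ := Finset.card_eq_two.1 hI2
  have arcab : arc H f a b := by
    obtain ⟨y, hy⟩ := out_arc H f a
    have h := hOc a (by simp) y hy
    rw [Finset.mem_insert, Finset.mem_singleton] at h
    rcases h with rfl | rfl
    · exact absurd rfl hy.1
    · exact hy
  have arcba : arc H f b a := by
    obtain ⟨y, hy⟩ := out_arc H f b
    have h := hOc b (by simp) y hy
    rw [Finset.mem_insert, Finset.mem_singleton] at h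
    rcases h with rfl | rfl
    · exact hy
    · exact absurd rfl hy.1
  have arcdc : arc H f d c := by
    obtain ⟨x, hx⟩ := in_arc H f c
    have h := hIc c (by simp) x hx
    rw [Finset.mem_insert, Finset.mem_singleton] at h
    rcases h with rfl | rfl
    · exact absurd rfl hx.1
    · exact hx
  have arccd : arc H f c d := by
    obtain ⟨x, hx⟩ := in_arc H f d
    have h := hIc d (by simp) x hx
    rw [Finset.mem_insert, Finset.mem_singleton] at h
    rcases h with rfl | rfl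
    · exact hx
    · exact absurd rfl hx.1
  have hac : a ≠ c ∧ a ≠ d ∧ b ≠ c ∧ b ≠ d := by
    rw [Finset.disjoint_left] at hd
    have e1 := hd (a := a) (by simp)
    have e2 := hd (a := b) (by simp)
    simp only [Finset.mem_insert, Finset.mem_singleton, not_or] at e1 e2
    exact ⟨e1.1, e1.2, e2.1, e2.2⟩
  obtain ⟨hac, had, hbc, hbd⟩ := hac
  have hsa : s ≠ a := by rintro rfl; exact hOF s (by simp) hs
  have hsb : s ≠ b := by rintro rfl; exact hOF s (by simp) hs
  have hta : t ≠ a := by rintro rfl; exact hOF t (by simp) ht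
  have htb : t ≠ b := by rintro rfl; exact hOF t (by simp) ht
  have hsc : s ≠ c := by rintro rfl; exact hIF s (by simp) hs
  have hsd : s ≠ d := by rintro rfl; exact hIF s (by simp) hs
  have htc : t ≠ c := by rintro rfl; exact hIF t (by simp) ht
  have htd : t ≠ d := by rintro rfl; exact hIF t (by simp) ht
  refine ⟨a, b, c, d, ?_, av_swap hf arcab arcba, av_swap hf arccd arcdc, ?_⟩
  · simp [hst, hsa, hsb, hsc, hsd, hta, htb, htc, htd, hab, hac, had, hbc, hbd, hcd]
  · refine av_swap (av_swap hf arcab arcba) ⟨hcd, fun i => ?_⟩ ⟨hcd.symm, fun i => ?_⟩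
    · rw [Equiv.Perm.mul_apply, Equiv.swap_apply_of_ne_of_ne had.symm hbd.symm]
      exact arccd.2 i
    · rw [Equiv.Perm.mul_apply, Equiv.swap_apply_of_ne_of_ne hac.symm hbc.symm]
      exact arcdc.2 i

end Pool.Agent.H828.CP
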